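import Pool.Agent.Helper8.FB.Poisson

/-!
# Bounds for the conformal boundary volume from the sharp Poisson inequality
-/

open MeasureTheory Module Metric Set
open scoped RealInnerProductSpace ContDiff Topology

namespace FBK

open FBM

variable {n : ℕ}

/-- Weighted AM-GM with exponents `k / 2` and `(k - 2) / 2`. -/
theorem amgm {k : ℕ} (hk : 3 ≤ k) {x y : ℝ} (hx : 0 < x) (hy : 0 < y) :
    x ^ ((k : ℝ) / 2) * y ^ (((k : ℝ) - 2) / 2) ≤
      ((k : ℝ) / (2 * (k - 1)) * x + ((k : ℝ) - 2) / (2 * (k - 1)) * y) ^ (k - 1) := by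
  have hk' : (3 : ℝ) ≤ k := by exact_mod_cast hk
  have hk1 : (0 : ℝ) < k - 1 := by linarith
  have h := Real.geom_mean_le_arith_mean2_weighted (w₁ := (k : ℝ) / (2 * (k - 1)))
    (w₂ := ((k : ℝ) - 2) / (2 * (k - 1))) (p₁ := x) (p₂ := y) (by positivity)
    (div_nonneg (by linarith) (by positivity)) hx.le hy.le (by field_simp; ring)
  have h2 := pow_le_pow_left₀ (by positivity) h (k - 1)
  refine le_trans (le_of_eq ?_) h2
  have e1 : ((k - 1 : ℕ) : ℝ) = (k : ℝ) - 1 := by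
    rw [Nat.cast_sub (by omega), Nat.cast_one]
  rw [mul_pow, ← Real.rpow_natCast, ← Real.rpow_natCast, ← Real.rpow_mul hx.le,
    ← Real.rpow_mul hy.le, e1]
  congr 2
  · field_simp
  · field_simp

theorem kernel_bound {k : ℕ} (hk : 3 ≤ k) {c t z : ℝ} (hc : 0 < c) (ht : 0 < t) (ht1 : t < 1)
    (hN : 0 < 1 + t ^ 2 - 2 * t * z)
    (hD : 0 < 1 + (t * (1 + c) / (1 + c * t ^ 2)) ^ 2
      - 2 * (t * (1 + c) / (1 + c * t ^ 2)) * z) :
    ((1 - t ^ 2) / (1 + t ^ 2 - 2 * t * z)) ^ (k - 1) ≤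
      (1 - t ^ 2) * ((k * (1 + c) / (2 * (k - 1) * (1 + c * t ^ 2))) ^ ((k : ℝ) / 2) *
        ((k - 2) * (1 + c) * (1 + c * t ^ 2) / (2 * (k - 1) * c)) ^ (((k : ℝ) - 2) / 2)) *
      (1 + (t * (1 + c) / (1 + c * t ^ 2)) ^ 2
        - 2 * (t * (1 + c) / (1 + c * t ^ 2)) * z) ^ (-(k : ℝ) / 2) := by
  have hk' : (3 : ℝ) ≤ k := by exact_mod_cast hk
  have hk1 : (0 : ℝ) < k - 1 := by linarith
  have hk2 : (0 : ℝ) < k - 2 := by linarith
  have h1t : 0 < 1 - t ^ 2 := by nlinarith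
  have hct : 0 < 1 + c * t ^ 2 := by positivity
  set X : ℝ := k * (1 + c) / (2 * (k - 1) * (1 + c * t ^ 2)) with hX
  set Y : ℝ := (k - 2) * (1 + c) * (1 + c * t ^ 2) / (2 * (k - 1) * c) with hY
  set D : ℝ := 1 + (t * (1 + c) / (1 + c * t ^ 2)) ^ 2
    - 2 * (t * (1 + c) / (1 + c * t ^ 2)) * z with hDdef
  have hXp : 0 < X := by positivity
  have hYp : 0 < Y := by positivity
  have hNeq : (k : ℝ) / (2 * (k - 1)) * (D / X) + ((k : ℝ) - 2) / (2 * (k - 1)) *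
      ((1 - t ^ 2) ^ 2 / Y) = 1 + t ^ 2 - 2 * t * z := by
    rw [hX, hY, hDdef]
    field_simp
    ring
  have h := amgm hk (x := D / X) (y := (1 - t ^ 2) ^ 2 / Y) (by positivity) (by positivity)
  rw [hNeq, Real.div_rpow hD.le hXp.le, Real.div_rpow (by positivity) hYp.le] at h
  have e2 : ((1 - t ^ 2) ^ 2) ^ (((k : ℝ) - 2) / 2) = (1 - t ^ 2) ^ (k - 2) := by
    rw [← Real.rpow_natCast (1 - t ^ 2) 2, ← Real.rpow_mul h1t.le,
      ← Real.rpow_natCast (1 - t ^ 2) (k - 2), Nat.cast_sub (by omega)]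
    congr 1
    push_cast
    ring
  rw [e2] at h
  rw [div_pow, div_le_iff₀ (by positivity), neg_div, Real.rpow_neg hD.le]
  have hXk : 0 < X ^ ((k : ℝ) / 2) := Real.rpow_pos_of_pos hXp _
  have hYk : 0 < Y ^ (((k : ℝ) - 2) / 2) := Real.rpow_pos_of_pos hYp _
  have hDk : 0 < D ^ ((k : ℝ) / 2) := Real.rpow_pos_of_pos hD _
  generalize X ^ ((k : ℝ) / 2) = A at *
  generalize Y ^ (((k : ℝ) - 2) / 2) = B at *
  generalize D ^ ((k : ℝ) / 2) = E at *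
  have e3 : (1 - t ^ 2) ^ (k - 1) = (1 - t ^ 2) * (A * B) * E⁻¹ *
      (E / A * ((1 - t ^ 2) ^ (k - 2) / B)) := by
    have : k - 1 = (k - 2) + 1 := by omega
    rw [this, pow_succ]
    field_simp
  rw [e3]
  exact mul_le_mul_of_nonneg_left h (by positivity)

theorem ratio_bound {k : ℕ} (hk : 3 ≤ k) {S Γ : Type*} [MeasurableSpace S]
    [MeasurableSpace Γ] {μ : Measure S} {u : S → E n} {T : S → Submodule ℝ (E n)}
    {σ : Measure Γ} {b : Γ → E n} (h : IsFreeBoundaryStationary k μ u T σ b)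
    {e : E n} (he : ‖e‖ = 1) {t : ℝ} (ht : 0 < t) (ht1 : t < 1) {c : ℝ} (hc : 0 < c)
    (hc1 : c < 1) :
    ∫ p, ((1 - t ^ 2) / (1 + t ^ 2 - 2 * t * ⟪e, b p⟫)) ^ (k - 1) ∂σ ≤
      (1 + c * t ^ 2) ^ 2 / (1 - c ^ 2 * t ^ 2) *
        ((k * (1 + c) / (2 * (k - 1) * (1 + c * t ^ 2))) ^ ((k : ℝ) / 2) *
        ((k - 2) * (1 + c) * (1 + c * t ^ 2) / (2 * (k - 1) * c)) ^ (((k : ℝ) - 2) / 2)) *
      σ.real univ := by
  have := h.finite_boundary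
  have hk' : (3 : ℝ) ≤ k := by exact_mod_cast hk
  have hk1 : (0 : ℝ) < k - 1 := by linarith
  have hk2 : (0 : ℝ) < k - 2 := by linarith
  have h1t : 0 < 1 - t ^ 2 := by nlinarith
  have hct : 0 < 1 + c * t ^ 2 := by positivity
  have h2t : 0 < 1 - c ^ 2 * t ^ 2 := by
    have : c ^ 2 * t ^ 2 < 1 := by
      have h1 : c * t < 1 := by nlinarith
      have h2 : 0 < c * t := by positivity
      nlinarith
    linarith
  set K : ℝ := ((k * (1 + c) / (2 * (k - 1) * (1 + c * t ^ 2))) ^ ((k : ℝ) / 2) *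
        ((k - 2) * (1 + c) * (1 + c * t ^ 2) / (2 * (k - 1) * c)) ^ (((k : ℝ) - 2) / 2)) with hK
  have hK0 : 0 < K := by positivity
  set a : ℝ := t * (1 + c) / (1 + c * t ^ 2) with ha
  have ha0 : 0 < a := by positivity
  have ha1 : a < 1 := by
    rw [ha, div_lt_one hct]
    nlinarith
  have ha2 : 1 - a ^ 2 = (1 - t ^ 2) * (1 - c ^ 2 * t ^ 2) / (1 + c * t ^ 2) ^ 2 := by
    rw [ha]; field_simp; ring
  have hP := poisson_le (by omega : 2 ≤ k) h he ha0.le ha1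
  have hint := integrable_den_rpow h he ha0.le ha1 (fun _ => 1) continuous_const (-(k : ℝ) / 2)
  simp only [mul_one] at hint
  have h1 : ∫ p, ((1 - t ^ 2) / (1 + t ^ 2 - 2 * t * ⟪e, b p⟫)) ^ (k - 1) ∂σ ≤
      ∫ p, (1 - t ^ 2) * K * (1 + a ^ 2 - 2 * a * ⟪e, b p⟫) ^ (-(k : ℝ) / 2) ∂σ := by
    refine integral_mono_of_nonneg ?_ (hint.const_mul _) ?_
    · filter_upwards [h.boundary_mem] with p hp
      have := den_pos ht.le ht1 he hp
      simp only [Pi.zero_apply]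
      positivity
    · filter_upwards [h.boundary_mem] with p hp
      exact kernel_bound hk hc ht ht1 (den_pos ht.le ht1 he hp) (den_pos ha0.le ha1 he hp)
  refine h1.trans ?_
  rw [integral_const_mul]
  rw [integral_const_mul] at hP
  have h1a : 0 < 1 - a ^ 2 := by nlinarith
  have e1 : (1 - t ^ 2) * K = ((1 + c * t ^ 2) ^ 2 / (1 - c ^ 2 * t ^ 2) * K) * (1 - a ^ 2) := by
    have h3 : 1 - t ^ 2 * c ^ 2 ≠ 0 := by rw [mul_comm (t ^ 2)]; exact h2t.ne'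
    rw [ha2]; field_simp
  rw [e1, mul_assoc]
  exact mul_le_mul_of_nonneg_left hP (by positivity)

/-- Reduction to the unit vector `y / ‖y‖`. -/
theorem factor_eq {y x : E n} (hy : 1 < ‖y‖) (hx : ‖x‖ = 1) :
    (‖y‖ ^ 2 - 1) / ‖x - y‖ ^ 2 =
      (1 - (‖y‖⁻¹) ^ 2) / (1 + (‖y‖⁻¹) ^ 2 - 2 * ‖y‖⁻¹ * ⟪‖y‖⁻¹ • y, x⟫) := by
  have h0 : (0 : ℝ) < ‖y‖ := by linarith
  have hxy : 0 < ‖x - y‖ := by
    rw [norm_pos_iff]
    intro h
    rw [sub_eq_zero] at h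
    rw [h] at hx
    linarith
  have h1 : ‖x - y‖ ^ 2 = 1 - 2 * ⟪y, x⟫ + ‖y‖ ^ 2 := by
    rw [norm_sub_sq_real, hx, real_inner_comm]; ring
  have h2 : 0 < 1 - 2 * ⟪y, x⟫ + ‖y‖ ^ 2 := by rw [← h1]; positivity
  rw [h1, inner_smul_left]
  simp only [RCLike.conj_to_real]
  have h3 : 1 + (‖y‖⁻¹) ^ 2 - 2 * ‖y‖⁻¹ * (‖y‖⁻¹ * ⟪y, x⟫) =
      (‖y‖⁻¹) ^ 2 * (1 - 2 * ⟪y, x⟫ + ‖y‖ ^ 2) := by
    field_simp
    ring
  rw [h3]
  field_simp

end FBK
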