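import Pool.Agent.Helper81.FBMCalib

/-!
# Divergence of fields `α x + β e` along subspaces, and the first variation inequality
-/

open MeasureTheory Module Metric
open scoped RealInnerProductSpace ContDiff Topology

namespace FBK

open FBM

variable {n : ℕ}

/-- `f` has derivative `a ⟪e, ·⟫ + b ⟪x, ·⟫` at `x`. -/
def J (e x : E n) (f : E n → ℝ) (a b : ℝ) : Prop :=
  HasFDerivAt f (a • innerSL ℝ e + b • innerSL ℝ x) x

namespace J

variable {e x : E n} {f g : E n → ℝ} {a b c d : ℝ}

theorem congr (h : J e x f a b) {a' b' : ℝ} (ha : a = a') (hb : b = b') : J e x f a' b' := by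
  subst ha hb; exact h

theorem const (r : ℝ) : J e x (fun _ => r) 0 0 := by
  refine (hasFDerivAt_const r x).congr_fderiv ?_
  ext v
  simp

theorem z : J e x (fun x => ⟪e, x⟫) 1 0 := by
  refine ((innerSL ℝ e).hasFDerivAt).congr_fderiv ?_
  ext v
  simp

theorem rho : J e x (fun x => ‖x‖ ^ 2) 0 2 := by
  refine ((hasFDerivAt_id x).norm_sq).congr_fderiv ?_
  ext v
  simp

theorem add (h : J e x f a b) (h' : J e x g c d) : J e x (fun x => f x + g x) (a + c) (b + d) := by
  refine (HasFDerivAt.add h h').congr_fderiv ?_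
  ext v
  simp
  ring

theorem sub (h : J e x f a b) (h' : J e x g c d) : J e x (fun x => f x - g x) (a - c) (b - d) := by
  refine (HasFDerivAt.sub h h').congr_fderiv ?_
  ext v
  simp
  ring

theorem neg (h : J e x f a b) : J e x (fun x => -f x) (-a) (-b) := by
  refine (HasFDerivAt.neg h).congr_fderiv ?_
  ext v
  simp
  ring

theorem mul (h : J e x f a b) (h' : J e x g c d) :
    J e x (fun x => f x * g x) (f x * c + g x * a) (f x * d + g x * b) := by
  refine (HasFDerivAt.mul h h').congr_fderiv ?_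
  ext v
  simp
  ring

theorem invpow (h : J e x f a b) (hf : f x ≠ 0) (k : ℕ) :
    J e x (fun x => ((f x)⁻¹) ^ k) (-(k * ((f x)⁻¹) ^ (k + 1) * a))
      (-(k * ((f x)⁻¹) ^ (k + 1) * b)) := by
  have h1 := ((hasDerivAt_inv hf).comp_hasFDerivAt x h).pow k
  refine h1.congr_fderiv ?_
  ext v
  rcases k with _ | k
  · simp
  · simp only [Nat.add_sub_cancel, _root_.smul_apply, _root_.add_apply, smul_eq_mul,
      nsmul_eq_mul, Function.comp_apply, innerSL_apply_apply, ← inv_pow]
    push_cast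
    ring

end J

theorem div_two {k : ℕ} (T : Submodule ℝ (E n)) (hT : finrank ℝ T = k) (x e : E n)
    (α β : E n → ℝ) (a1 a2 b1 b2 : ℝ) (dα : J e x α a1 a2) (dβ : J e x β b1 b2) :
    divAlong T (fun z => α z • z + β z • e) x =
      (k * α x + a1 * ⟪e, x⟫ + a2 * ‖x‖ ^ 2 + b1 * ‖e‖ ^ 2 + b2 * ⟪e, x⟫)
        - a2 * ‖x - T.starProjection x‖ ^ 2
        - (a1 + b2) * ⟪x - T.starProjection x, e - T.starProjection e⟫
        - b1 * ‖e - T.starProjection e‖ ^ 2 := by
  have hW : HasFDerivAt (fun z => α z • z + β z • e)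
      (α x • ContinuousLinearMap.id ℝ (E n)
        + (a1 • innerSL ℝ e + a2 • innerSL ℝ x).smulRight x
        + (b1 • innerSL ℝ e + b2 • innerSL ℝ x).smulRight e) x :=
    (HasFDerivAt.smul dα (hasFDerivAt_id x)).add (HasFDerivAt.smul_const dβ e)
  unfold divAlong
  rw [hW.fderiv]
  have hlin : ((T.starProjection : E n →ₗ[ℝ] E n) ∘ₗ
      ((α x • ContinuousLinearMap.id ℝ (E n)
        + (a1 • innerSL ℝ e + a2 • innerSL ℝ x).smulRight x
        + (b1 • innerSL ℝ e + b2 • innerSL ℝ x).smulRight e : E n →L[ℝ] E n) :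
          E n →ₗ[ℝ] E n))
      = α x • (T.starProjection : E n →ₗ[ℝ] E n)
        + (T.starProjection : E n →ₗ[ℝ] E n) ∘ₗ
          (((a1 • innerSL ℝ e + a2 • innerSL ℝ x).smulRight x : E n →L[ℝ] E n) :
            E n →ₗ[ℝ] E n)
        + (T.starProjection : E n →ₗ[ℝ] E n) ∘ₗ
          (((b1 • innerSL ℝ e + b2 • innerSL ℝ x).smulRight e : E n →L[ℝ] E n) :
            E n →ₗ[ℝ] E n) := by
    ext z
    simp
  rw [hlin, map_add, map_add, map_smul, trace_starProjection, trace_comp_smulRight,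
    trace_comp_smulRight, hT]
  simp only [_root_.smul_apply, _root_.add_apply, innerSL_apply_apply, smul_eq_mul]
  rw [inner_star_star T x x, inner_star_star T e x, inner_star_star T x e,
    inner_star_star T e e]
  rw [← real_inner_self_eq_norm_sq x, ← real_inner_self_eq_norm_sq e,
    ← real_inner_self_eq_norm_sq (x - T.starProjection x),
    ← real_inner_self_eq_norm_sq (e - T.starProjection e), real_inner_comm e x,
    real_inner_comm (x - T.starProjection x) (e - T.starProjection e)]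
  ring

theorem fv_nonneg {k : ℕ} {S Γ : Type*} [MeasurableSpace S]
    [MeasurableSpace Γ] {μ : Measure S} {u : S → E n} {T : S → Submodule ℝ (E n)}
    {σ : Measure Γ} {b : Γ → E n} (h : IsFreeBoundaryStationary k μ u T σ b)
    (y : E n) (hy : 1 < ‖y‖) (W : E n → E n)
    (hW : ∀ x, ‖x‖ < ‖y‖ → ContDiffAt ℝ ∞ W x)
    (hdiv : ∀ x, ‖x‖ ≤ 1 → ∀ T' : Submodule ℝ (E n), finrank ℝ T' = k →
      0 ≤ divAlong T' W x) :
    0 ≤ ∫ p, ⟪W (b p), b p⟫ ∂σ := by
  obtain ⟨X, hX, hXW⟩ := exists_extension hy hW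
  have hfv := h.first_variation X hX
  have hdivX : ∀ x, ‖x‖ ≤ 1 → ∀ T' : Submodule ℝ (E n), divAlong T' X x = divAlong T' W x := by
    intro x hx T'
    unfold divAlong
    rw [(hXW x hx).fderiv_eq]
  have hR : ∫ p, ⟪X (b p), b p⟫ ∂σ = ∫ p, ⟪W (b p), b p⟫ ∂σ := by
    refine integral_congr_ae ?_
    filter_upwards [h.boundary_mem] with p hp
    rw [(hXW _ hp.le).eq_of_nhds]
  rw [← hR, ← hfv]
  refine integral_nonneg_of_ae ?_
  filter_upwards [h.interior_mem, h.finrank_tangent] with p hp1 hp2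
  simp only [Pi.zero_apply]
  rw [hdivX _ hp1]
  exact hdiv _ hp1 _ hp2

end FBK
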