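import Pool.Agent.Helper8.FB.Near

/-!
# Monotonicity of boundary integrals
-/

open MeasureTheory Module Metric Set
open scoped RealInnerProductSpace ContDiff Topology

namespace FBK

open FBM

variable {n : ℕ}

theorem integral_antitone {Γ : Type*} [MeasurableSpace Γ] (σ : Measure Γ) [IsFiniteMeasure σ]
    (b : Γ → E n) (hb : AEMeasurable b σ) (hb1 : ∀ᵐ p ∂σ, ‖b p‖ = 1) {R : ℝ}
    (f f' : ℝ → E n → ℝ)
    (hm : ∀ t, Measurable (f t)) (hm' : ∀ t, Measurable (f' t))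
    (hd : ∀ t ∈ Icc 0 R, ∀ x, ‖x‖ = 1 → HasDerivAt (fun t => f t x) (f' t x) t)
    (hc : ContinuousOn (fun q : ℝ × E n => f q.1 q.2) (Icc 0 R ×ˢ sphere 0 1))
    (hc' : ContinuousOn (fun q : ℝ × E n => f' q.1 q.2) (Icc 0 R ×ˢ sphere 0 1))
    (hneg : ∀ t ∈ Ioo 0 R, ∫ p, f' t (b p) ∂σ ≤ 0) :
    AntitoneOn (fun t => ∫ p, f t (b p) ∂σ) (Icc 0 R) := by
  have hK : IsCompact ((Icc 0 R) ×ˢ (sphere (0 : E n) 1)) :=
    isCompact_Icc.prod (isCompact_sphere _ _)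
  obtain ⟨B, hB⟩ := hK.exists_bound_of_continuousOn hc
  obtain ⟨B', hB'⟩ := hK.exists_bound_of_continuousOn hc'
  have hmem : ∀ {x : E n}, ‖x‖ = 1 → x ∈ sphere (0 : E n) 1 := by
    intro x hx
    simpa using hx
  have hms : ∀ t, AEStronglyMeasurable (fun p => f t (b p)) σ := fun t =>
    ((hm t).comp_aemeasurable hb).aestronglyMeasurable
  have hms' : ∀ t, AEStronglyMeasurable (fun p => f' t (b p)) σ := fun t =>
    ((hm' t).comp_aemeasurable hb).aestronglyMeasurable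
  have hcont : ContinuousOn (fun t => ∫ p, f t (b p) ∂σ) (Icc 0 R) := by
    refine continuousOn_of_dominated (bound := fun _ => B) (fun t _ => hms t) ?_
      (integrable_const B) ?_
    · intro t ht
      filter_upwards [hb1] with p hp
      exact hB (t, b p) ⟨ht, hmem hp⟩
    · filter_upwards [hb1] with p hp
      exact fun t ht => (hd t ht _ hp).continuousAt.continuousWithinAt
  have hder : ∀ t ∈ Ioo 0 R, HasDerivAt (fun t => ∫ p, f t (b p) ∂σ)
      (∫ p, f' t (b p) ∂σ) t := by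
    intro t ht
    refine (hasDerivAt_integral_of_dominated_loc_of_deriv_le (μ := σ) (bound := fun _ => B')
      (F := fun t p => f t (b p)) (F' := fun t p => f' t (b p)) (x₀ := t) (s := Ioo 0 R)
      (Ioo_mem_nhds ht.1 ht.2) (Filter.Eventually.of_forall hms) ?_ (hms' t) ?_
      (integrable_const B') ?_).2
    · refine Integrable.of_bound (hms t) B ?_
      filter_upwards [hb1] with p hp
      exact hB (t, b p) ⟨Ioo_subset_Icc_self ht, hmem hp⟩
    · filter_upwards [hb1] with p hp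
      intro s hs
      exact hB' (s, b p) ⟨Ioo_subset_Icc_self hs, hmem hp⟩
    · filter_upwards [hb1] with p hp
      intro s hs
      exact hd s (Ioo_subset_Icc_self hs) _ hp
  refine antitoneOn_of_deriv_nonpos (convex_Icc 0 R) hcont ?_ ?_
  · rw [interior_Icc]
    exact fun t ht => (hder t ht).differentiableAt.differentiableWithinAt
  · rw [interior_Icc]
    intro t ht
    rw [(hder t ht).deriv]
    exact hneg t ht

theorem den_pos {t : ℝ} (ht : 0 ≤ t) (ht1 : t < 1) {e x : E n} (he : ‖e‖ = 1) (hx : ‖x‖ = 1) :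
    0 < 1 + t ^ 2 - 2 * t * ⟪e, x⟫ := by
  have h := real_inner_le_norm e x
  rw [he, hx, one_mul] at h
  nlinarith

/-- Conformal factor along the ray. -/
noncomputable def cfac (m : ℕ) (e : E n) (t : ℝ) (x : E n) : ℝ :=
  ((1 - t ^ 2) * (1 + t ^ 2 - 2 * t * ⟪e, x⟫)⁻¹) ^ m

/-- The derivative of `cfac`. -/
noncomputable def cfac' (m : ℕ) (e : E n) (t : ℝ) (x : E n) : ℝ :=
  -(2 * m * (1 - t ^ 2) ^ (m - 1)) *
    (((1 + t ^ 2 - 2 * t * ⟪e, x⟫)⁻¹) ^ (m + 1) * (2 * t - (1 + t ^ 2) * ⟪e, x⟫))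

theorem hasDerivAt_cfac (m : ℕ) {t : ℝ} (ht : 0 ≤ t) (ht1 : t < 1) {e x : E n} (he : ‖e‖ = 1)
    (hx : ‖x‖ = 1) : HasDerivAt (fun t => cfac m e t x) (cfac' m e t x) t := by
  have hD := den_pos ht ht1 he hx
  unfold cfac cfac'
  generalize ⟪e, x⟫ = z at *
  have h1 : HasDerivAt (fun t : ℝ => 1 + t ^ 2 - 2 * t * z) (2 * t - 2 * z) t := by
    have h := (((hasDerivAt_pow 2 t).const_add 1)).sub (((hasDerivAt_id t).const_mul 2).mul_const z)
    refine h.congr_deriv ?_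
    simp
  have h2 : HasDerivAt (fun t : ℝ => 1 - t ^ 2) (-(2 * t)) t := by
    have h := (hasDerivAt_pow 2 t).const_sub 1
    refine h.congr_deriv ?_
    simp
  have h3 := (h2.mul (h1.inv hD.ne')).pow m
  refine h3.congr_deriv ?_
  rcases m with _ | m
  · simp
  · simp only [Nat.add_sub_cancel, Pi.inv_apply, Pi.mul_apply]
    push_cast
    rw [div_eq_mul_inv, ← inv_pow, mul_pow]
    have hI : (1 + t ^ 2 - 2 * t * z)⁻¹ * (1 + t ^ 2 - 2 * t * z) = 1 :=
      inv_mul_cancel₀ hD.ne'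
    generalize (1 + t ^ 2 - 2 * t * z)⁻¹ = I at *
    have e1 : I ^ (m + 1 + 1) = I ^ m * I * I := by ring
    have e2 : -(2 * t) * I + (1 - t ^ 2) * (-(2 * t - 2 * z) * I ^ 2) =
        -2 * (2 * t - (1 + t ^ 2) * z) * I ^ 2 := by
      linear_combination (-(2 * t)) * I * (-1) * hI
    rw [e1]
    have e3 : (((m : ℝ) + 1) * ((1 - t ^ 2) ^ m * I ^ m)) *
        (-(2 * t) * I + (1 - t ^ 2) * (-(2 * t - 2 * z) * I ^ 2)) =
        -(2 * ((m : ℝ) + 1) * (1 - t ^ 2) ^ m) *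
          (I ^ m * I * I * (2 * t - (1 + t ^ 2) * z)) := by
      rw [e2]; ring
    exact e3

theorem cfac_zero (m : ℕ) (e x : E n) : cfac m e 0 x = 1 := by
  unfold cfac; simp

theorem measurable_cfac (m : ℕ) (e : E n) (t : ℝ) : Measurable (cfac m e t) := by
  unfold cfac
  fun_prop

theorem measurable_cfac' (m : ℕ) (e : E n) (t : ℝ) : Measurable (cfac' m e t) := by
  unfold cfac'
  fun_prop

theorem continuousOn_den {R : ℝ} (hR : R < 1) {e : E n} (he : ‖e‖ = 1) :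
    ContinuousOn (fun q : ℝ × E n => (1 + q.1 ^ 2 - 2 * q.1 * ⟪e, q.2⟫)⁻¹)
      (Icc 0 R ×ˢ sphere 0 1) := by
  refine ContinuousOn.inv₀ (by fun_prop) ?_
  rintro ⟨t, x⟩ ⟨ht, hx⟩
  have hx' : ‖x‖ = 1 := by simpa using hx
  exact (den_pos ht.1 (lt_of_le_of_lt ht.2 hR) he hx').ne'

theorem continuousOn_cfac (m : ℕ) {R : ℝ} (hR : R < 1) {e : E n} (he : ‖e‖ = 1) :
    ContinuousOn (fun q : ℝ × E n => cfac m e q.1 q.2) (Icc 0 R ×ˢ sphere 0 1) := by
  unfold cfac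
  have := continuousOn_den hR he
  fun_prop

theorem continuousOn_cfac' (m : ℕ) {R : ℝ} (hR : R < 1) {e : E n} (he : ‖e‖ = 1) :
    ContinuousOn (fun q : ℝ × E n => cfac' m e q.1 q.2) (Icc 0 R ×ˢ sphere 0 1) := by
  unfold cfac'
  have := continuousOn_den hR he
  fun_prop

theorem antitone_cfac {k : ℕ} (hk : 4 ≤ k) {S Γ : Type*} [MeasurableSpace S]
    [MeasurableSpace Γ] {μ : Measure S} {u : S → E n} {T : S → Submodule ℝ (E n)}
    {σ : Measure Γ} {b : Γ → E n} (h : IsFreeBoundaryStationary k μ u T σ b)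
    {e : E n} (he : ‖e‖ = 1) {R : ℝ} (hR0 : 0 ≤ R) (hkR : 9 * k * R ^ 2 ≤ 1) :
    AntitoneOn (fun t => ∫ p, cfac (k - 1) e t (b p) ∂σ) (Icc 0 R) := by
  have := h.finite_boundary
  have hk' : (4 : ℝ) ≤ k := by exact_mod_cast hk
  have hR1 : R < 1 := by nlinarith
  refine integral_antitone σ b h.aemeasurable_boundary h.boundary_mem (cfac (k - 1) e)
    (cfac' (k - 1) e) (measurable_cfac _ e) (measurable_cfac' _ e)
    (fun t ht x hx => hasDerivAt_cfac _ ht.1 (lt_of_le_of_lt ht.2 hR1) he hx)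
    (continuousOn_cfac _ hR1 he) (continuousOn_cfac' _ hR1 he) ?_
  intro t ht
  have hkt : 9 * k * t ^ 2 ≤ 1 := by
    have : t ^ 2 ≤ R ^ 2 := pow_le_pow_left₀ ht.1.le ht.2.le 2
    have h9 : (0 : ℝ) ≤ 9 * k := by positivity
    nlinarith [mul_le_mul_of_nonneg_left this h9]
  have hfl := flux_nonneg hk h he ht.1 hkt
  have e1 : k - 1 + 1 = k := by omega
  have h1 : ∫ p, cfac' (k - 1) e t (b p) ∂σ =
      -(2 * ((k - 1 : ℕ) : ℝ) * (1 - t ^ 2) ^ (k - 1 - 1)) *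
      ∫ p, ((1 + t ^ 2 - 2 * t * ⟪e, b p⟫)⁻¹) ^ k * (2 * t - (1 + t ^ 2) * ⟪e, b p⟫) ∂σ := by
    rw [← integral_const_mul]
    unfold cfac'
    rw [e1]
  rw [h1]
  have h2 : 0 ≤ 2 * ((k - 1 : ℕ) : ℝ) * (1 - t ^ 2) ^ (k - 1 - 1) := by
    have : 0 ≤ 1 - t ^ 2 := by nlinarith [ht.1, ht.2]
    positivity
  have := mul_nonneg h2 hfl
  linarith

end FBK
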