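import Mathlib

/-!
Polynomial inequality behind the general `k` boundary volume estimate near the identity.
-/

namespace FBK

theorem mb {X Y V : ℝ} (hX : |X| ≤ 1 / 6) (hY : |Y| ≤ 1 / 36) (hV : |V| ≤ 1 / 36) (c : ℝ)
    (i j l : ℕ) (B : ℝ) (hB : |c| * (1 / 6) ^ i * (1 / 36) ^ j * (1 / 36) ^ l ≤ B) :
    -B ≤ c * X ^ i * Y ^ j * V ^ l := by
  have h1 : |c * X ^ i * Y ^ j * V ^ l| ≤ |c| * (1 / 6) ^ i * (1 / 36) ^ j * (1 / 36) ^ l := by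
    rw [abs_mul, abs_mul, abs_mul, abs_pow, abs_pow, abs_pow]
    have := pow_le_pow_left₀ (abs_nonneg X) hX i
    have := pow_le_pow_left₀ (abs_nonneg Y) hY j
    have := pow_le_pow_left₀ (abs_nonneg V) hV l
    gcongr
  have h2 := neg_abs_le (c * X ^ i * Y ^ j * V ^ l)
  linarith

/-- coefficient polynomial -/
def p2 (X Y V : ℝ) : ℝ :=
    (36) * X ^ 0 * Y ^ 0 * V ^ 0 + (-282) * X ^ 0 * Y ^ 0 * V ^ 1
    + (-468) * X ^ 0 * Y ^ 0 * V ^ 2 + (-468) * X ^ 0 * Y ^ 0 * V ^ 3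
    + (-25) * X ^ 0 * Y ^ 1 * V ^ 0 + (-276) * X ^ 0 * Y ^ 1 * V ^ 1
    + (-36) * X ^ 0 * Y ^ 1 * V ^ 2 + (-148) * X ^ 0 * Y ^ 2 * V ^ 0
    + (468) * X ^ 0 * Y ^ 2 * V ^ 1 + (56) * X ^ 0 * Y ^ 3 * V ^ 0
    + (-32) * X ^ 1 * Y ^ 0 * V ^ 0 + (16) * X ^ 1 * Y ^ 0 * V ^ 1
    + (1152) * X ^ 1 * Y ^ 0 * V ^ 2 + (-864) * X ^ 1 * Y ^ 0 * V ^ 3
    + (-164) * X ^ 1 * Y ^ 1 * V ^ 0 + (1184) * X ^ 1 * Y ^ 1 * V ^ 1
    + (2016) * X ^ 1 * Y ^ 1 * V ^ 2 + (16) * X ^ 1 * Y ^ 2 * V ^ 0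
    + (3168) * X ^ 1 * Y ^ 2 * V ^ 1 + (288) * X ^ 1 * Y ^ 3 * V ^ 0
    + (-258) * X ^ 2 * Y ^ 0 * V ^ 0 + (592) * X ^ 2 * Y ^ 0 * V ^ 1
    + (1476) * X ^ 2 * Y ^ 0 * V ^ 2 + (-168) * X ^ 2 * Y ^ 1 * V ^ 0
    + (1528) * X ^ 2 * Y ^ 1 * V ^ 1 + (4032) * X ^ 2 * Y ^ 1 * V ^ 2
    + (532) * X ^ 2 * Y ^ 2 * V ^ 0 + (4032) * X ^ 2 * Y ^ 2 * V ^ 1
    + (-64) * X ^ 3 * Y ^ 0 * V ^ 0 + (1440) * X ^ 3 * Y ^ 0 * V ^ 1
    + (-7200) * X ^ 3 * Y ^ 0 * V ^ 2 + (1152) * X ^ 3 * Y ^ 1 * V ^ 0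
    + (-1728) * X ^ 3 * Y ^ 1 * V ^ 1 + (3168) * X ^ 3 * Y ^ 2 * V ^ 0
    + (996) * X ^ 4 * Y ^ 0 * V ^ 0 + (2308) * X ^ 4 * Y ^ 0 * V ^ 1
    + (-4608) * X ^ 4 * Y ^ 0 * V ^ 2 + (1500) * X ^ 4 * Y ^ 1 * V ^ 0
    + (3456) * X ^ 4 * Y ^ 1 * V ^ 1 + (4032) * X ^ 4 * Y ^ 2 * V ^ 0
    + (288) * X ^ 5 * Y ^ 0 * V ^ 0 + (-11808) * X ^ 5 * Y ^ 0 * V ^ 1
    + (-3744) * X ^ 5 * Y ^ 1 * V ^ 0 + (364) * X ^ 6 * Y ^ 0 * V ^ 0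
    + (-9216) * X ^ 6 * Y ^ 0 * V ^ 1 + (-576) * X ^ 6 * Y ^ 1 * V ^ 0
    + (-5472) * X ^ 7 * Y ^ 0 * V ^ 0 + (-4608) * X ^ 8 * Y ^ 0 * V ^ 0

theorem p2_nonneg {X Y V : ℝ} (hX : |X| ≤ 1 / 6) (hY : |Y| ≤ 1 / 36) (hV : |V| ≤ 1 / 36) :
    0 ≤ p2 X Y V := by
  unfold p2
  have h1 := mb hX hY hV (-282) 0 0 1 (47/6) (by norm_num)
  have h2 := mb hX hY hV (-468) 0 0 2 (13/36) (by norm_num)
  have h3 := mb hX hY hV (-468) 0 0 3 (13/1296) (by norm_num)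
  have h4 := mb hX hY hV (-25) 0 1 0 (25/36) (by norm_num)
  have h5 := mb hX hY hV (-276) 0 1 1 (23/108) (by norm_num)
  have h6 := mb hX hY hV (-36) 0 1 2 (1/1296) (by norm_num)
  have h7 := mb hX hY hV (-148) 0 2 0 (37/324) (by norm_num)
  have h8 := mb hX hY hV (468) 0 2 1 (13/1296) (by norm_num)
  have h9 := mb hX hY hV (56) 0 3 0 (7/5832) (by norm_num)
  have h10 := mb hX hY hV (-32) 1 0 0 (16/3) (by norm_num)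
  have h11 := mb hX hY hV (16) 1 0 1 (2/27) (by norm_num)
  have h12 := mb hX hY hV (1152) 1 0 2 (4/27) (by norm_num)
  have h13 := mb hX hY hV (-864) 1 0 3 (1/324) (by norm_num)
  have h14 := mb hX hY hV (-164) 1 1 0 (41/54) (by norm_num)
  have h15 := mb hX hY hV (1184) 1 1 1 (37/243) (by norm_num)
  have h16 := mb hX hY hV (2016) 1 1 2 (7/972) (by norm_num)
  have h17 := mb hX hY hV (16) 1 2 0 (1/486) (by norm_num)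
  have h18 := mb hX hY hV (3168) 1 2 1 (11/972) (by norm_num)
  have h19 := mb hX hY hV (288) 1 3 0 (1/972) (by norm_num)
  have h20 := mb hX hY hV (-258) 2 0 0 (43/6) (by norm_num)
  have h21 := mb hX hY hV (592) 2 0 1 (37/81) (by norm_num)
  have h22 := mb hX hY hV (1476) 2 0 2 (41/1296) (by norm_num)
  have h23 := mb hX hY hV (-168) 2 1 0 (7/54) (by norm_num)
  have h24 := mb hX hY hV (1528) 2 1 1 (191/5832) (by norm_num)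
  have h25 := mb hX hY hV (4032) 2 1 2 (7/2916) (by norm_num)
  have h26 := mb hX hY hV (532) 2 2 0 (133/11664) (by norm_num)
  have h27 := mb hX hY hV (4032) 2 2 1 (7/2916) (by norm_num)
  have h28 := mb hX hY hV (-64) 3 0 0 (8/27) (by norm_num)
  have h29 := mb hX hY hV (1440) 3 0 1 (5/27) (by norm_num)
  have h30 := mb hX hY hV (-7200) 3 0 2 (25/972) (by norm_num)
  have h31 := mb hX hY hV (1152) 3 1 0 (4/27) (by norm_num)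
  have h32 := mb hX hY hV (-1728) 3 1 1 (1/162) (by norm_num)
  have h33 := mb hX hY hV (3168) 3 2 0 (11/972) (by norm_num)
  have h34 := mb hX hY hV (996) 4 0 0 (83/108) (by norm_num)
  have h35 := mb hX hY hV (2308) 4 0 1 (577/11664) (by norm_num)
  have h36 := mb hX hY hV (-4608) 4 0 2 (2/729) (by norm_num)
  have h37 := mb hX hY hV (1500) 4 1 0 (125/3888) (by norm_num)
  have h38 := mb hX hY hV (3456) 4 1 1 (1/486) (by norm_num)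
  have h39 := mb hX hY hV (4032) 4 2 0 (7/2916) (by norm_num)
  have h40 := mb hX hY hV (288) 5 0 0 (1/27) (by norm_num)
  have h41 := mb hX hY hV (-11808) 5 0 1 (41/972) (by norm_num)
  have h42 := mb hX hY hV (-3744) 5 1 0 (13/972) (by norm_num)
  have h43 := mb hX hY hV (364) 6 0 0 (91/11664) (by norm_num)
  have h44 := mb hX hY hV (-9216) 6 0 1 (4/729) (by norm_num)
  have h45 := mb hX hY hV (-576) 6 1 0 (1/2916) (by norm_num)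
  have h46 := mb hX hY hV (-5472) 7 0 0 (19/972) (by norm_num)
  have h47 := mb hX hY hV (-4608) 8 0 0 (2/729) (by norm_num)
  norm_num only at *
  linarith

/-- coefficient polynomial -/
def p3 (X Y V : ℝ) : ℝ :=
    (36) * X ^ 0 * Y ^ 0 * V ^ 0 + (-261) * X ^ 0 * Y ^ 0 * V ^ 1
    + (-324) * X ^ 0 * Y ^ 0 * V ^ 2 + (-36) * X ^ 0 * Y ^ 0 * V ^ 3
    + (-48) * X ^ 1 * Y ^ 0 * V ^ 0 + (276) * X ^ 1 * Y ^ 0 * V ^ 1
    + (-144) * X ^ 1 * Y ^ 0 * V ^ 2 + (-386) * X ^ 2 * Y ^ 0 * V ^ 0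
    + (320) * X ^ 2 * Y ^ 0 * V ^ 1 + (1008) * X ^ 2 * Y ^ 0 * V ^ 2
    + (792) * X ^ 3 * Y ^ 0 * V ^ 0 + (-2032) * X ^ 3 * Y ^ 0 * V ^ 1
    + (1152) * X ^ 3 * Y ^ 0 * V ^ 2 + (1740) * X ^ 4 * Y ^ 0 * V ^ 0
    + (680) * X ^ 4 * Y ^ 0 * V ^ 1 + (-3632) * X ^ 5 * Y ^ 0 * V ^ 0
    + (3456) * X ^ 5 * Y ^ 0 * V ^ 1 + (-1808) * X ^ 6 * Y ^ 0 * V ^ 0
    + (3456) * X ^ 7 * Y ^ 0 * V ^ 0

theorem p3_nonneg {X Y V : ℝ} (hX : |X| ≤ 1 / 6) (hY : |Y| ≤ 1 / 36) (hV : |V| ≤ 1 / 36) :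
    0 ≤ p3 X Y V := by
  unfold p3
  have h1 := mb hX hY hV (-261) 0 0 1 (29/4) (by norm_num)
  have h2 := mb hX hY hV (-324) 0 0 2 (1/4) (by norm_num)
  have h3 := mb hX hY hV (-36) 0 0 3 (1/1296) (by norm_num)
  have h4 := mb hX hY hV (-48) 1 0 0 (8) (by norm_num)
  have h5 := mb hX hY hV (276) 1 0 1 (23/18) (by norm_num)
  have h6 := mb hX hY hV (-144) 1 0 2 (1/54) (by norm_num)
  have h7 := mb hX hY hV (-386) 2 0 0 (193/18) (by norm_num)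
  have h8 := mb hX hY hV (320) 2 0 1 (20/81) (by norm_num)
  have h9 := mb hX hY hV (1008) 2 0 2 (7/324) (by norm_num)
  have h10 := mb hX hY hV (792) 3 0 0 (11/3) (by norm_num)
  have h11 := mb hX hY hV (-2032) 3 0 1 (127/486) (by norm_num)
  have h12 := mb hX hY hV (1152) 3 0 2 (1/243) (by norm_num)
  have h13 := mb hX hY hV (1740) 4 0 0 (145/108) (by norm_num)
  have h14 := mb hX hY hV (680) 4 0 1 (85/5832) (by norm_num)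
  have h15 := mb hX hY hV (-3632) 5 0 0 (227/486) (by norm_num)
  have h16 := mb hX hY hV (3456) 5 0 1 (1/81) (by norm_num)
  have h17 := mb hX hY hV (-1808) 6 0 0 (113/2916) (by norm_num)
  have h18 := mb hX hY hV (3456) 7 0 0 (1/81) (by norm_num)
  norm_num only at *
  linarith

/-- coefficient polynomial -/
def p1 (X : ℝ) : ℝ :=
  20 - 80 * X - 141 * X ^ 2 + 516 * X ^ 3 + 1096 * X ^ 4 - 1744 * X ^ 5 - 1444 * X ^ 6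
    + 1152 * X ^ 7

theorem p1_nonneg {X : ℝ} (hX : |X| ≤ 1 / 6) : 0 ≤ p1 X := by
  unfold p1
  obtain ⟨h1, h2⟩ := abs_le.1 hX
  have hsq : X ^ 2 ≤ 1 / 36 := by nlinarith
  rcases le_total 0 X with h0 | h0
  · have a3 : 0 ≤ X ^ 3 := by positivity
    have a5 : X ^ 5 ≤ 1 / 36 * X ^ 3 := by nlinarith [mul_nonneg a3 (sub_nonneg.2 hsq)]
    have a4 : 0 ≤ X ^ 4 := by positivity
    have a6 : X ^ 6 ≤ 1 / 36 * X ^ 4 := by nlinarith [mul_nonneg a4 (sub_nonneg.2 hsq)]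
    have a7 : 0 ≤ X ^ 7 := by positivity
    nlinarith
  · obtain ⟨x, rfl⟩ : ∃ x, X = -x := ⟨-X, by ring⟩
    have hx : 0 ≤ x := by linarith
    have hx6 : x ≤ 1 / 6 := by linarith
    have hq : x ^ 2 ≤ 1 / 36 := by nlinarith
    have a3 : x ^ 3 ≤ 1 / 36 * x := by nlinarith [mul_nonneg hx (sub_nonneg.2 hq)]
    have a4 : 0 ≤ x ^ 4 := by positivity
    have a6 : x ^ 6 ≤ 1 / 36 * x ^ 4 := by nlinarith [mul_nonneg a4 (sub_nonneg.2 hq)]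
    have a5 : 0 ≤ x ^ 5 := by positivity
    have a7 : x ^ 7 ≤ 1 / 36 * x ^ 5 := by nlinarith [mul_nonneg a5 (sub_nonneg.2 hq)]
    ring_nf at *
    nlinarith

/-- The key polynomial inequality. -/
theorem key {X Y V : ℝ} (hX : |X| ≤ 1 / 6) (hY : 0 ≤ Y) (hV : 0 ≤ V)
    (hs : X ^ 2 + Y + V ≤ 1 / 36) :
    ((1 + 2 * Y) * (1 - 2 * X - 4 * X ^ 2 + 2 * Y)
      - (1 + 2 * X) * (1 - 3 * (X ^ 2 + Y + V) - 8 * (X ^ 2 + Y + V) * X + 2 * Y + 8 * X * Y)) ^ 2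
    ≤ 36 * (X ^ 2 + Y + V) * (1 + (X ^ 2 + Y + V) - 2 * X - 2 * Y * (1 + 2 * X)) *
      ((1 + 2 * Y) * (1 - 3 * (X ^ 2 + Y + V) - 8 * (X ^ 2 + Y + V) * X + 2 * Y + 8 * X * Y)
        - 4 * (X ^ 2 + V) * (1 + 2 * X) * (1 - 2 * X - 4 * X ^ 2 + 2 * Y)
        - (X ^ 2 + V) * (1 + (X ^ 2 + Y + V) - 2 * X - 2 * Y * (1 + 2 * X))) := by
  have hY' : |Y| ≤ 1 / 36 := by
    rw [abs_of_nonneg hY]
    nlinarith [sq_nonneg X]
  have hV' : |V| ≤ 1 / 36 := by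
    rw [abs_of_nonneg hV]
    nlinarith [sq_nonneg X]
  have h1 := mul_nonneg (sq_nonneg X) (p1_nonneg hX)
  have h2 := mul_nonneg hY (p2_nonneg hX hY' hV')
  have h3 := mul_nonneg hV (p3_nonneg hX hY' hV')
  have h4 : 0 ≤ X ^ 2 * p1 X + Y * p2 X Y V + V * p3 X Y V := by linarith
  refine sub_nonneg.1 (le_of_le_of_eq h4 ?_)
  unfold p1 p2 p3
  ring

end FBK
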