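import Pool.Agent.Helper8.FB.Div
import Pool.Agent.Helper8.FB.Poly

/-!
# The calibrating field near the identity, for every dimension `k ≥ 4`
-/

open MeasureTheory Module Metric
open scoped RealInnerProductSpace ContDiff Topology

namespace FBK

open FBM

variable {n : ℕ}

/-- The base `A`; on the unit sphere it is `1 + t ^ 2 - 2 t ⟪e, x⟫`. -/
noncomputable def Af (t : ℝ) (e x : E n) : ℝ :=
  1 - t ^ 2 - 2 * t * (1 + 2 * t ^ 2) * ⟪e, x⟫ + 2 * t ^ 2 * ‖x‖ ^ 2 * (1 + 2 * t * ⟪e, x⟫)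
/-- Coefficient of `x`. -/
noncomputable def Zf (t : ℝ) (e x : E n) : ℝ :=
  1 + 2 * t ^ 2 - 2 * t * ⟪e, x⟫ - 4 * t ^ 2 * (⟪e, x⟫ * ⟪e, x⟫) - 2 * t ^ 2 * ‖x‖ ^ 2
/-- Coefficient of `e`. -/
noncomputable def Cf (t : ℝ) (e x : E n) : ℝ :=
  1 - t ^ 2 - 2 * t ^ 2 * ‖x‖ ^ 2 * (1 + 4 * t * ⟪e, x⟫)

variable (t : ℝ) (e x : E n)

theorem J_A : J e x (Af t e) (-2 * t * (1 + 2 * t ^ 2) + 4 * t ^ 3 * ‖x‖ ^ 2)
    (4 * t ^ 2 * (1 + 2 * t * ⟪e, x⟫)) := by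
  have hz : J e x (fun x => ⟪e, x⟫) 1 0 := J.z
  have hr : J e x (fun x => ‖x‖ ^ 2) 0 2 := J.rho
  refine ((((J.const (1 - t ^ 2)).sub ((J.const (2 * t * (1 + 2 * t ^ 2))).mul hz))).add
    (((J.const (2 * t ^ 2)).mul hr).mul ((J.const 1).add ((J.const (2 * t)).mul hz)))).congr
      ?_ ?_
  · ring
  · ring

theorem J_Z : J e x (Zf t e) (-2 * t - 8 * t ^ 2 * ⟪e, x⟫) (-4 * t ^ 2) := by
  have hz : J e x (fun x => ⟪e, x⟫) 1 0 := J.z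
  have hr : J e x (fun x => ‖x‖ ^ 2) 0 2 := J.rho
  refine ((((J.const (1 + 2 * t ^ 2)).sub ((J.const (2 * t)).mul hz)).sub
    ((J.const (4 * t ^ 2)).mul (hz.mul hz))).sub ((J.const (2 * t ^ 2)).mul hr)).congr
      ?_ ?_
  · ring
  · ring

theorem J_C : J e x (Cf t e) (-8 * t ^ 3 * ‖x‖ ^ 2) (-4 * t ^ 2 * (1 + 4 * t * ⟪e, x⟫)) := by
  have hz : J e x (fun x => ⟪e, x⟫) 1 0 := J.z
  have hr : J e x (fun x => ‖x‖ ^ 2) 0 2 := J.rho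
  refine ((J.const (1 - t ^ 2)).sub
    (((J.const (2 * t ^ 2)).mul hr).mul ((J.const 1).add ((J.const (4 * t)).mul hz)))).congr
      ?_ ?_
  · ring
  · ring

/-- The calibrating field. -/
noncomputable def Vf (k : ℕ) (t : ℝ) (e x : E n) : E n :=
  (2 * t * (((Af t e x)⁻¹) ^ k * Zf t e x)) • x + (-(((Af t e x)⁻¹) ^ k * Cf t e x)) • e

theorem div_Vf {k : ℕ} (he : ‖e‖ = 1) (hA : Af t e x ≠ 0) (T : Submodule ℝ (E n))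
    (hT : finrank ℝ T = k) :
    divAlong T (Vf k t e) x = (2 * t * ((Af t e x)⁻¹) ^ (k + 1)) *
      ((k * (1 + 2 * t * ⟪e, x⟫) * Zf t e x + Af t e x) *
          ‖(2 * t) • (x - T.starProjection x)‖ ^ 2
        + (-(k * ((1 + 2 * (t ^ 2 * (1 - ‖x‖ ^ 2))) * Zf t e x
            + (1 + 2 * t * ⟪e, x⟫) * Cf t e x))) *
          ⟪(2 * t) • (x - T.starProjection x), e - T.starProjection e⟫
        + (k * (1 + 2 * (t ^ 2 * (1 - ‖x‖ ^ 2))) * Cf t e x - 4 * t ^ 2 * ‖x‖ ^ 2 * Af t e x) *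
          ‖e - T.starProjection e‖ ^ 2) := by
  have hP := (J_A t e x).invpow hA k
  have hα := (J.const (e := e) (x := x) (2 * t)).mul (hP.mul (J_Z t e x))
  have hβ := (hP.mul (J_C t e x)).neg
  have h := div_two T hT x e _ _ _ _ _ _ hα hβ
  have hV : Vf k t e = fun z => (2 * t * (((Af t e z)⁻¹) ^ k * Zf t e z)) • z
      + (-(((Af t e z)⁻¹) ^ k * Cf t e z)) • e := rfl
  rw [hV, h]
  have hPk : ((Af t e x)⁻¹) ^ k = ((Af t e x)⁻¹) ^ (k + 1) * Af t e x := by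
    rw [pow_succ, mul_assoc, inv_mul_cancel₀ hA, mul_one]
  rw [hPk, norm_smul, mul_pow, inner_smul_left, he]
  simp only [RCLike.conj_to_real, Real.norm_eq_abs, sq_abs]
  generalize ((Af t e x)⁻¹) ^ (k + 1) = Q
  generalize ‖x - T.starProjection x‖ = N1
  generalize ‖e - T.starProjection e‖ = N2
  generalize ⟪x - T.starProjection x, e - T.starProjection e⟫ = I
  unfold Af Zf Cf
  generalize ⟪e, x⟫ = z
  generalize ‖x‖ = r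
  ring

section bounds

variable {t e x}

theorem facts (he : ‖e‖ = 1) (hx : ‖x‖ ≤ 1) (ht : 0 ≤ t) (ht6 : t ^ 2 ≤ 1 / 36) :
    |t * ⟪e, x⟫| ≤ 1 / 6 ∧ 0 ≤ t ^ 2 * (1 - ‖x‖ ^ 2) ∧ 0 ≤ t ^ 2 * (‖x‖ ^ 2 - ⟪e, x⟫ ^ 2) ∧
    (t * ⟪e, x⟫) ^ 2 + t ^ 2 * (1 - ‖x‖ ^ 2) + t ^ 2 * (‖x‖ ^ 2 - ⟪e, x⟫ ^ 2) = t ^ 2 := by
  have hcs : |⟪e, x⟫| ≤ ‖x‖ := by
    have := abs_real_inner_le_norm e x
    rwa [he, one_mul] at this
  have ht' : t ≤ 1 / 6 := by nlinarith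
  refine ⟨?_, ?_, ?_, ?_⟩
  · rw [abs_mul, abs_of_nonneg ht]
    calc t * |⟪e, x⟫| ≤ 1 / 6 * 1 :=
          mul_le_mul ht' (hcs.trans hx) (abs_nonneg _) (by norm_num)
      _ = 1 / 6 := by norm_num
  · have : ‖x‖ ^ 2 ≤ 1 := by nlinarith [norm_nonneg x]
    have h2 : 0 ≤ 1 - ‖x‖ ^ 2 := by linarith
    positivity
  · have : ⟪e, x⟫ ^ 2 ≤ ‖x‖ ^ 2 := by
      rw [← sq_abs]
      exact pow_le_pow_left₀ (abs_nonneg _) hcs 2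
    have h2 : 0 ≤ ‖x‖ ^ 2 - ⟪e, x⟫ ^ 2 := by linarith
    positivity
  · ring

theorem A_eq : Af t e x = 1 + t ^ 2 - 2 * (t * ⟪e, x⟫)
    - 2 * (t ^ 2 * (1 - ‖x‖ ^ 2)) * (1 + 2 * (t * ⟪e, x⟫)) := by
  unfold Af; ring

theorem A_pos (he : ‖e‖ = 1) (hx : ‖x‖ < 2) (ht : 0 ≤ t) (ht6 : t ^ 2 ≤ 1 / 36) :
    0 < Af t e x := by
  have hcs : |⟪e, x⟫| ≤ ‖x‖ := by
    have := abs_real_inner_le_norm e x
    rwa [he, one_mul] at this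
  have ht' : t ≤ 1 / 6 := by nlinarith
  obtain ⟨h1, h2⟩ := abs_le.1 hcs
  have hX1 : t * ⟪e, x⟫ ≤ 1 / 3 := by nlinarith
  have hX2 : -(1 / 3) ≤ t * ⟪e, x⟫ := by nlinarith
  rw [A_eq]
  have hY : t ^ 2 * (1 - ‖x‖ ^ 2) ≤ 1 / 36 := by nlinarith [sq_nonneg t, sq_nonneg ‖x‖]
  nlinarith

theorem quad_facts {k : ℕ} (hk : 4 ≤ k) (he : ‖e‖ = 1) (hx : ‖x‖ ≤ 1) (ht : 0 < t)
    (hkt : 9 * k * t ^ 2 ≤ 1) :
    0 < k * (1 + 2 * (t ^ 2 * (1 - ‖x‖ ^ 2))) * Cf t e x - 4 * t ^ 2 * ‖x‖ ^ 2 * Af t e x ∧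
    (-(k * ((1 + 2 * (t ^ 2 * (1 - ‖x‖ ^ 2))) * Zf t e x
            + (1 + 2 * t * ⟪e, x⟫) * Cf t e x))) ^ 2 ≤
      4 * (k * (1 + 2 * (t ^ 2 * (1 - ‖x‖ ^ 2))) * Cf t e x - 4 * t ^ 2 * ‖x‖ ^ 2 * Af t e x) *
      (k * (1 + 2 * t * ⟪e, x⟫) * Zf t e x + Af t e x) := by
  have hk' : (4 : ℝ) ≤ k := by exact_mod_cast hk
  have ht6 : t ^ 2 ≤ 1 / 36 := by nlinarith [sq_nonneg t]
  obtain ⟨hX, hY, hV, hs⟩ := facts he hx ht.le ht6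
  have hA := A_pos he (lt_of_le_of_lt hx (by norm_num)) ht.le ht6
  have hkey := key hX hY hV (by rw [hs]; exact ht6)
  have eA : Af t e x = 1 + ((t * ⟪e, x⟫) ^ 2 + t ^ 2 * (1 - ‖x‖ ^ 2)
      + t ^ 2 * (‖x‖ ^ 2 - ⟪e, x⟫ ^ 2)) - 2 * (t * ⟪e, x⟫)
      - 2 * (t ^ 2 * (1 - ‖x‖ ^ 2)) * (1 + 2 * (t * ⟪e, x⟫)) := by
    unfold Af; ring
  have eZ : Zf t e x = 1 - 2 * (t * ⟪e, x⟫) - 4 * (t * ⟪e, x⟫) ^ 2
      + 2 * (t ^ 2 * (1 - ‖x‖ ^ 2)) := by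
    unfold Zf; ring
  have eC : Cf t e x = 1 - 3 * ((t * ⟪e, x⟫) ^ 2 + t ^ 2 * (1 - ‖x‖ ^ 2)
      + t ^ 2 * (‖x‖ ^ 2 - ⟪e, x⟫ ^ 2)) - 8 * ((t * ⟪e, x⟫) ^ 2 + t ^ 2 * (1 - ‖x‖ ^ 2)
      + t ^ 2 * (‖x‖ ^ 2 - ⟪e, x⟫ ^ 2)) * (t * ⟪e, x⟫) + 2 * (t ^ 2 * (1 - ‖x‖ ^ 2))
      + 8 * (t * ⟪e, x⟫) * (t ^ 2 * (1 - ‖x‖ ^ 2)) := by
    unfold Cf; ring
  rw [← eA, ← eZ, ← eC] at hkey
  have er : t ^ 2 * ‖x‖ ^ 2 = (t * ⟪e, x⟫) ^ 2 + t ^ 2 * (‖x‖ ^ 2 - ⟪e, x⟫ ^ 2) := by ring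
  rw [hs] at hkey eA eC
  have e4 : 4 * t ^ 2 * ‖x‖ ^ 2 = 4 * (t ^ 2 * ‖x‖ ^ 2) := by ring
  rw [e4, er, show 2 * t * ⟪e, x⟫ = 2 * (t * ⟪e, x⟫) by ring]
  generalize t * ⟪e, x⟫ = X at *
  generalize t ^ 2 * (1 - ‖x‖ ^ 2) = Y at *
  generalize t ^ 2 * (‖x‖ ^ 2 - ⟪e, x⟫ ^ 2) = V at *
  generalize Af t e x = A at *
  generalize Zf t e x = Z at *
  generalize Cf t e x = C at *
  have hts : 0 < t ^ 2 := by positivity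
  generalize t ^ 2 = s at *
  obtain ⟨hX1, hX2⟩ := abs_le.1 hX
  have hX2' : X ^ 2 ≤ 1 / 36 := by nlinarith
  have hYs : Y ≤ 1 / 36 := by nlinarith
  have hVs : V ≤ 1 / 36 := by nlinarith
  have hCpos : 1 / 2 < C := by
    rw [eC]
    nlinarith
  have hA2 : A < 2 := by
    rw [eA]
    nlinarith
  have hW : 0 ≤ X ^ 2 + V := by positivity
  have hWs : X ^ 2 + V ≤ 1 / 36 := by nlinarith
  constructor
  · have h1 : (k : ℝ) * (1 + 2 * Y) * C ≥ 4 * 1 * (1 / 2) := by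
      have : (1 : ℝ) ≤ 1 + 2 * Y := by linarith
      gcongr
    have h2 : 4 * (X ^ 2 + V) * A ≤ 4 * (1 / 36) * 2 := by
      gcongr
    linarith
  · set Br := (1 + 2 * Y) * C - 4 * (X ^ 2 + V) * (1 + 2 * X) * Z - (X ^ 2 + V) * A with hBr
    have hABr : 0 ≤ A * Br := by
      have h1 : 0 ≤ 36 * s * (A * Br) := by
        have := sq_nonneg ((1 + 2 * Y) * Z - (1 + 2 * X) * C)
        have h3 : 36 * s * (A * Br) = 36 * s * A * Br := by ring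
        rw [h3]
        linarith
      exact nonneg_of_mul_nonneg_right h1 (by positivity)
    have h1 : (k : ℝ) ^ 2 * ((1 + 2 * Y) * Z - (1 + 2 * X) * C) ^ 2 ≤ 4 * k * (A * Br) := by
      calc (k : ℝ) ^ 2 * ((1 + 2 * Y) * Z - (1 + 2 * X) * C) ^ 2
          ≤ (k : ℝ) ^ 2 * (36 * s * A * Br) := by gcongr
        _ = (4 * k * (A * Br)) * (9 * k * s) := by ring
        _ ≤ (4 * k * (A * Br)) * 1 := by
            apply mul_le_mul_of_nonneg_left hkt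
            positivity
        _ = 4 * k * (A * Br) := by ring
    have h2 : 0 ≤ 4 * (k - 4) * (X ^ 2 + V) * A ^ 2 := by
      have : (0 : ℝ) ≤ k - 4 := by linarith
      positivity
    have h3 : 4 * ((k : ℝ) * (1 + 2 * Y) * C - 4 * (X ^ 2 + V) * A) *
        (k * (1 + 2 * X) * Z + A)
        - (-(k * ((1 + 2 * Y) * Z + (1 + 2 * X) * C))) ^ 2
        = (4 * k * (A * Br) - (k : ℝ) ^ 2 * ((1 + 2 * Y) * Z - (1 + 2 * X) * C) ^ 2)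
          + 4 * (k - 4) * (X ^ 2 + V) * A ^ 2 := by
      rw [hBr]; ring
    linarith

theorem div_Vf_nonneg {k : ℕ} (hk : 4 ≤ k) (he : ‖e‖ = 1) (hx : ‖x‖ ≤ 1) (ht : 0 < t)
    (hkt : 9 * k * t ^ 2 ≤ 1) (T : Submodule ℝ (E n)) (hT : finrank ℝ T = k) :
    0 ≤ divAlong T (Vf k t e) x := by
  have hk' : (4 : ℝ) ≤ k := by exact_mod_cast hk
  have ht6 : t ^ 2 ≤ 1 / 36 := by nlinarith [sq_nonneg t]
  have hA := A_pos he (lt_of_le_of_lt hx (by norm_num)) ht.le ht6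
  rw [div_Vf t e x he hA.ne' T hT]
  obtain ⟨h1, h2⟩ := quad_facts hk he hx ht hkt
  refine mul_nonneg (by positivity) ?_
  exact quad_nonneg h1 h2 _ _

theorem contDiffAt_Vf (k : ℕ) (hA : Af t e x ≠ 0) : ContDiffAt ℝ ∞ (Vf k t e) x := by
  have hz : ContDiffAt ℝ ∞ (fun x : E n => ⟪e, x⟫) x := contDiffAt_const.inner ℝ contDiffAt_id
  have hr : ContDiffAt ℝ ∞ (fun x : E n => ‖x‖ ^ 2) x := contDiffAt_id.norm_sq ℝ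
  have hAf : ContDiffAt ℝ ∞ (Af t e) x := by
    unfold Af
    fun_prop
  have hZf : ContDiffAt ℝ ∞ (Zf t e) x := by
    unfold Zf
    fun_prop
  have hCf : ContDiffAt ℝ ∞ (Cf t e) x := by
    unfold Cf
    fun_prop
  have hP : ContDiffAt ℝ ∞ (fun x => ((Af t e x)⁻¹) ^ k) x := (hAf.inv hA).pow k
  unfold Vf
  exact ((contDiffAt_const.mul (hP.mul hZf)).smul contDiffAt_id).add
    ((hP.mul hCf).neg.smul contDiffAt_const)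

theorem flux_Vf (k : ℕ) (hx : ‖x‖ = 1) :
    ⟪Vf k t e x, x⟫ = ((1 + t ^ 2 - 2 * t * ⟪e, x⟫)⁻¹) ^ k * (2 * t - (1 + t ^ 2) * ⟪e, x⟫) := by
  unfold Vf
  rw [inner_add_left, inner_smul_left, inner_smul_left, real_inner_self_eq_norm_sq, hx]
  have hA : Af t e x = 1 + t ^ 2 - 2 * t * ⟪e, x⟫ := by
    unfold Af; rw [hx]; ring
  rw [hA]
  unfold Zf Cf
  rw [hx]
  simp only [RCLike.conj_to_real]
  ring

end bounds

theorem flux_nonneg {k : ℕ} (hk : 4 ≤ k) {S Γ : Type*} [MeasurableSpace S]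
    [MeasurableSpace Γ] {μ : Measure S} {u : S → E n} {T : S → Submodule ℝ (E n)}
    {σ : Measure Γ} {b : Γ → E n} (h : IsFreeBoundaryStationary k μ u T σ b)
    {e : E n} (he : ‖e‖ = 1) {t : ℝ} (ht : 0 < t) (hkt : 9 * k * t ^ 2 ≤ 1) :
    0 ≤ ∫ p, ((1 + t ^ 2 - 2 * t * ⟪e, b p⟫)⁻¹) ^ k * (2 * t - (1 + t ^ 2) * ⟪e, b p⟫) ∂σ := by
  have hk' : (4 : ℝ) ≤ k := by exact_mod_cast hk
  have ht6 : t ^ 2 ≤ 1 / 36 := by nlinarith [sq_nonneg t]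
  have h2 : ‖(2 : ℝ) • e‖ = 2 := by rw [norm_smul, he]; norm_num
  have := fv_nonneg h ((2 : ℝ) • e) (by rw [h2]; norm_num) (Vf k t e)
    (fun x hx => contDiffAt_Vf k (A_pos he (by rwa [h2] at hx) ht.le ht6).ne')
    (fun x hx T' hT' => div_Vf_nonneg hk he hx ht hkt T' hT')
  have h3 : ∫ p, ⟪Vf k t e (b p), b p⟫ ∂σ =
      ∫ p, ((1 + t ^ 2 - 2 * t * ⟪e, b p⟫)⁻¹) ^ k * (2 * t - (1 + t ^ 2) * ⟪e, b p⟫) ∂σ := by
    refine integral_congr_ae ?_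
    filter_upwards [h.boundary_mem] with p hp
    exact flux_Vf k hp
  rwa [h3] at this

end FBK
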