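import Pool.Agent.Helper8.FB.Mono

/-!
# The sharp Poisson inequality
-/

open MeasureTheory Module Metric Set
open scoped RealInnerProductSpace ContDiff Topology

namespace FBK

open FBM

variable {n : ℕ}

theorem J.rpow {e x : E n} {f : E n → ℝ} {a b : ℝ} (h : J e x f a b) (hf : 0 < f x) (p : ℝ) :
    J e x (fun x => f x ^ p) (p * f x ^ (p - 1) * a) (p * f x ^ (p - 1) * b) := by
  have h1 := (Real.hasDerivAt_rpow_const (p := p) (Or.inl hf.ne')).comp_hasFDerivAt x h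
  refine h1.congr_fderiv ?_
  ext v
  simp only [_root_.smul_apply, _root_.add_apply, smul_eq_mul, innerSL_apply_apply]
  ring

/-- The squared distance to `y`. -/
noncomputable def Qf (y x : E n) : ℝ := ‖x‖ ^ 2 - 2 * ⟪y, x⟫ + ‖y‖ ^ 2

theorem Qf_eq (y x : E n) : Qf y x = ‖x - y‖ ^ 2 := by
  unfold Qf
  rw [norm_sub_sq_real, real_inner_comm]

theorem J_Q (y x : E n) : J y x (Qf y) (-2) 2 := by
  have hz : J y x (fun x => ⟪y, x⟫) 1 0 := J.z
  have hr : J y x (fun x => ‖x‖ ^ 2) 0 2 := J.rho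
  refine ((hr.sub ((J.const 2).mul hz)).add (J.const (‖y‖ ^ 2))).congr ?_ ?_
  · ring
  · ring

/-- The field of a point source at `y`. -/
noncomputable def Sf (k : ℕ) (y x : E n) : E n :=
  (Qf y x ^ (-(k : ℝ) / 2)) • x + (-(Qf y x ^ (-(k : ℝ) / 2))) • y

theorem Qf_pos {y x : E n} (h : ‖x‖ < ‖y‖) : 0 < Qf y x := by
  rw [Qf_eq]
  have : x - y ≠ 0 := by
    intro h0
    rw [sub_eq_zero] at h0
    rw [h0] at h
    exact lt_irrefl _ h
  have := norm_pos_iff.2 this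
  positivity

theorem div_Sf_nonneg {k : ℕ} {y x : E n} (hxy : ‖x‖ < ‖y‖) (T : Submodule ℝ (E n))
    (hT : finrank ℝ T = k) : 0 ≤ divAlong T (Sf k y) x := by
  have hQ := Qf_pos hxy
  have hα := (J_Q y x).rpow hQ (-(k : ℝ) / 2)
  have h := div_two T hT x y _ _ _ _ _ _ hα hα.neg
  have hV : Sf k y = fun z => (Qf y z ^ (-(k : ℝ) / 2)) • z + (-(Qf y z ^ (-(k : ℝ) / 2))) • y := rfl
  rw [hV, h]
  have e1 : Qf y x ^ (-(k : ℝ) / 2) = Qf y x ^ (-(k : ℝ) / 2 - 1) * Qf y x := by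
    conv_lhs => rw [show (-(k : ℝ) / 2) = (-(k : ℝ) / 2 - 1) + 1 by ring]
    rw [Real.rpow_add_one hQ.ne']
  have e2 : ‖(x - y) - T.starProjection (x - y)‖ ^ 2 =
      ‖x - T.starProjection x‖ ^ 2 - 2 * ⟪x - T.starProjection x, y - T.starProjection y⟫
        + ‖y - T.starProjection y‖ ^ 2 := by
    rw [map_sub, show x - y - (T.starProjection x - T.starProjection y) =
      (x - T.starProjection x) - (y - T.starProjection y) by abel, norm_sub_sq_real]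
  have e3 : (k * Qf y x ^ (-(k : ℝ) / 2)
        + (-(k : ℝ) / 2 * Qf y x ^ (-(k : ℝ) / 2 - 1) * (-2)) * ⟪y, x⟫
        + (-(k : ℝ) / 2 * Qf y x ^ (-(k : ℝ) / 2 - 1) * 2) * ‖x‖ ^ 2
        + (-(-(k : ℝ) / 2 * Qf y x ^ (-(k : ℝ) / 2 - 1) * (-2))) * ‖y‖ ^ 2
        + (-(-(k : ℝ) / 2 * Qf y x ^ (-(k : ℝ) / 2 - 1) * 2)) * ⟪y, x⟫)
        - (-(k : ℝ) / 2 * Qf y x ^ (-(k : ℝ) / 2 - 1) * 2) * ‖x - T.starProjection x‖ ^ 2
        - ((-(k : ℝ) / 2 * Qf y x ^ (-(k : ℝ) / 2 - 1) * (-2))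
            + (-(-(k : ℝ) / 2 * Qf y x ^ (-(k : ℝ) / 2 - 1) * 2))) *
          ⟪x - T.starProjection x, y - T.starProjection y⟫
        - (-(-(k : ℝ) / 2 * Qf y x ^ (-(k : ℝ) / 2 - 1) * (-2))) * ‖y - T.starProjection y‖ ^ 2
      = k * Qf y x ^ (-(k : ℝ) / 2 - 1) * ‖(x - y) - T.starProjection (x - y)‖ ^ 2 := by
    rw [e1, e2]
    generalize Qf y x ^ (-(k : ℝ) / 2 - 1) = P
    unfold Qf
    ring
  rw [e3]
  positivity

theorem contDiffAt_Sf (k : ℕ) {y x : E n} (hxy : ‖x‖ < ‖y‖) : ContDiffAt ℝ ∞ (Sf k y) x := by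
  have hz : ContDiffAt ℝ ∞ (fun x : E n => ⟪y, x⟫) x := contDiffAt_const.inner ℝ contDiffAt_id
  have hr : ContDiffAt ℝ ∞ (fun x : E n => ‖x‖ ^ 2) x := contDiffAt_id.norm_sq ℝ
  have hQ : ContDiffAt ℝ ∞ (Qf y) x := by
    unfold Qf
    fun_prop
  have hP : ContDiffAt ℝ ∞ (fun x => Qf y x ^ (-(k : ℝ) / 2)) x :=
    hQ.rpow_const_of_ne (Qf_pos hxy).ne'
  unfold Sf
  exact (hP.smul contDiffAt_id).add (hP.neg.smul contDiffAt_const)

theorem source_nonneg {k : ℕ} {S Γ : Type*} [MeasurableSpace S]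
    [MeasurableSpace Γ] {μ : Measure S} {u : S → E n} {T : S → Submodule ℝ (E n)}
    {σ : Measure Γ} {b : Γ → E n} (h : IsFreeBoundaryStationary k μ u T σ b)
    {e : E n} (he : ‖e‖ = 1) {t : ℝ} (ht : 0 < t) (ht1 : t < 1) :
    0 ≤ ∫ p, (1 + t ^ 2 - 2 * t * ⟪e, b p⟫) ^ (-(k : ℝ) / 2) * (t - ⟪e, b p⟫) ∂σ := by
  have hy : ‖t⁻¹ • e‖ = t⁻¹ := by
    rw [norm_smul, he, mul_one, Real.norm_eq_abs, abs_of_pos (by positivity)]
  have hy1 : 1 < ‖t⁻¹ • e‖ := by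
    rw [hy]
    exact (one_lt_inv₀ ht).2 ht1
  have h1 := fv_nonneg h (t⁻¹ • e) hy1 (Sf k (t⁻¹ • e)) (fun x hx => contDiffAt_Sf k hx)
    (fun x hx T' hT' => div_Sf_nonneg (lt_of_le_of_lt hx hy1) T' hT')
  have h2 : ∫ p, ⟪Sf k (t⁻¹ • e) (b p), b p⟫ ∂σ =
      ((t ^ 2)⁻¹ ^ (-(k : ℝ) / 2) * t⁻¹) *
      ∫ p, (1 + t ^ 2 - 2 * t * ⟪e, b p⟫) ^ (-(k : ℝ) / 2) * (t - ⟪e, b p⟫) ∂σ := by
    rw [← integral_const_mul]
    refine integral_congr_ae ?_
    filter_upwards [h.boundary_mem] with p hp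
    unfold Sf
    rw [inner_add_left, inner_smul_left, inner_smul_left, real_inner_self_eq_norm_sq, hp]
    simp only [RCLike.conj_to_real]
    have hQ : Qf (t⁻¹ • e) (b p) = (t ^ 2)⁻¹ * (1 + t ^ 2 - 2 * t * ⟪e, b p⟫) := by
      unfold Qf
      rw [hp, hy, inner_smul_left]
      simp only [RCLike.conj_to_real]
      field_simp
      ring
    have hD := den_pos ht.le ht1 he hp
    rw [hQ, Real.mul_rpow (by positivity) hD.le, inner_smul_left]
    simp only [RCLike.conj_to_real]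
    generalize (1 + t ^ 2 - 2 * t * ⟪e, b p⟫) ^ (-(k : ℝ) / 2) = A
    generalize ((t ^ 2)⁻¹) ^ (-(k : ℝ) / 2) = B
    have : t⁻¹ * t = 1 := inv_mul_cancel₀ ht.ne'
    linear_combination (-A * B) * this
  rw [h2] at h1
  exact (mul_nonneg_iff_of_pos_left (by positivity)).1 h1

/-- The Newtonian kernel along the ray. -/
noncomputable def nk (k : ℕ) (e : E n) (t : ℝ) (x : E n) : ℝ :=
  (1 + t ^ 2 - 2 * t * ⟪e, x⟫) ^ (1 - (k : ℝ) / 2)

/-- The derivative of `nk`. -/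
noncomputable def nk' (k : ℕ) (e : E n) (t : ℝ) (x : E n) : ℝ :=
  -((k : ℝ) - 2) * ((1 + t ^ 2 - 2 * t * ⟪e, x⟫) ^ (-(k : ℝ) / 2) * (t - ⟪e, x⟫))

theorem hasDerivAt_nk (k : ℕ) {t : ℝ} (ht : 0 ≤ t) (ht1 : t < 1) {e x : E n} (he : ‖e‖ = 1)
    (hx : ‖x‖ = 1) : HasDerivAt (fun t => nk k e t x) (nk' k e t x) t := by
  have hD := den_pos ht ht1 he hx
  unfold nk nk'
  generalize ⟪e, x⟫ = z at *
  have h1 : HasDerivAt (fun t : ℝ => 1 + t ^ 2 - 2 * t * z) (2 * t - 2 * z) t := by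
    have h := (((hasDerivAt_pow 2 t).const_add 1)).sub (((hasDerivAt_id t).const_mul 2).mul_const z)
    refine h.congr_deriv ?_
    simp
  have h2 := h1.rpow_const (p := 1 - (k : ℝ) / 2) (Or.inl hD.ne')
  refine h2.congr_deriv ?_
  rw [show (1 - (k : ℝ) / 2 - 1) = -(k : ℝ) / 2 by ring]
  ring

theorem continuousOn_den_rpow {R : ℝ} (hR : R < 1) {e : E n} (he : ‖e‖ = 1) (p : ℝ) :
    ContinuousOn (fun q : ℝ × E n => (1 + q.1 ^ 2 - 2 * q.1 * ⟪e, q.2⟫) ^ p)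
      (Icc 0 R ×ˢ sphere 0 1) := by
  refine ContinuousOn.rpow_const (by fun_prop) ?_
  rintro ⟨t, x⟩ ⟨ht, hx⟩
  have hx' : ‖x‖ = 1 := by simpa using hx
  exact Or.inl (den_pos ht.1 (lt_of_le_of_lt ht.2 hR) he hx').ne'

theorem antitone_nk {k : ℕ} (hk : 2 ≤ k) {S Γ : Type*} [MeasurableSpace S]
    [MeasurableSpace Γ] {μ : Measure S} {u : S → E n} {T : S → Submodule ℝ (E n)}
    {σ : Measure Γ} {b : Γ → E n} (h : IsFreeBoundaryStationary k μ u T σ b)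
    {e : E n} (he : ‖e‖ = 1) {R : ℝ} (hR1 : R < 1) :
    AntitoneOn (fun t => ∫ p, nk k e t (b p) ∂σ) (Icc 0 R) := by
  have := h.finite_boundary
  have hk' : (2 : ℝ) ≤ k := by exact_mod_cast hk
  refine integral_antitone σ b h.aemeasurable_boundary h.boundary_mem (nk k e) (nk' k e)
    (fun t => by unfold nk; fun_prop) (fun t => by unfold nk'; fun_prop)
    (fun t ht x hx => hasDerivAt_nk _ ht.1 (lt_of_le_of_lt ht.2 hR1) he hx)
    (continuousOn_den_rpow hR1 he _) ?_ ?_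
  · unfold nk'
    have := continuousOn_den_rpow (n := n) hR1 he (-(k : ℝ) / 2)
    fun_prop
  · intro t ht
    have h1 := source_nonneg h he ht.1 (ht.2.trans hR1)
    unfold nk'
    rw [integral_const_mul]
    nlinarith [mul_nonneg (by linarith : (0 : ℝ) ≤ (k : ℝ) - 2) h1]

theorem integrable_den_rpow {S Γ : Type*} [MeasurableSpace S]
    [MeasurableSpace Γ] {μ : Measure S} {u : S → E n} {T : S → Submodule ℝ (E n)}
    {σ : Measure Γ} {b : Γ → E n} {k : ℕ} (h : IsFreeBoundaryStationary k μ u T σ b)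
    {e : E n} (he : ‖e‖ = 1) {t : ℝ} (ht0 : 0 ≤ t) (ht1 : t < 1) (g : E n → ℝ)
    (hg : Continuous g) (q : ℝ) :
    Integrable (fun p => (1 + t ^ 2 - 2 * t * ⟪e, b p⟫) ^ q * g (b p)) σ := by
  have := h.finite_boundary
  have hc : ContinuousOn (fun x : E n => (1 + t ^ 2 - 2 * t * ⟪e, x⟫) ^ q * g x)
      (sphere 0 1) := by
    refine ContinuousOn.mul (ContinuousOn.rpow_const (by fun_prop) ?_) hg.continuousOn
    intro x hx
    have hx' : ‖x‖ = 1 := by simpa using hx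
    exact Or.inl (den_pos ht0 ht1 he hx').ne'
  obtain ⟨B, hB⟩ := (isCompact_sphere (0 : E n) 1).exists_bound_of_continuousOn hc
  refine Integrable.of_bound ?_ B ?_
  · have hm : Measurable (fun x : E n => (1 + t ^ 2 - 2 * t * ⟪e, x⟫) ^ q * g x) := by
      have := hg.measurable
      fun_prop
    exact (hm.comp_aemeasurable h.aemeasurable_boundary).aestronglyMeasurable
  · filter_upwards [h.boundary_mem] with p hp
    exact hB (b p) (by simpa using hp)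

theorem nk_le {k : ℕ} (hk : 2 ≤ k) {S Γ : Type*} [MeasurableSpace S]
    [MeasurableSpace Γ] {μ : Measure S} {u : S → E n} {T : S → Submodule ℝ (E n)}
    {σ : Measure Γ} {b : Γ → E n} (h : IsFreeBoundaryStationary k μ u T σ b)
    {e : E n} (he : ‖e‖ = 1) {t : ℝ} (ht0 : 0 ≤ t) (ht1 : t < 1) :
    ∫ p, (1 + t ^ 2 - 2 * t * ⟪e, b p⟫) ^ (1 - (k : ℝ) / 2) ∂σ ≤ σ.real univ := by
  have h1 := antitone_nk hk h he ht1 ⟨le_rfl, ht0⟩ ⟨ht0, le_rfl⟩ ht0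
  have h2 : ∫ p, nk k e 0 (b p) ∂σ = σ.real univ := by
    unfold nk
    simp
  simp only [h2] at h1
  exact h1

theorem poisson_le {k : ℕ} (hk : 2 ≤ k) {S Γ : Type*} [MeasurableSpace S]
    [MeasurableSpace Γ] {μ : Measure S} {u : S → E n} {T : S → Submodule ℝ (E n)}
    {σ : Measure Γ} {b : Γ → E n} (h : IsFreeBoundaryStationary k μ u T σ b)
    {e : E n} (he : ‖e‖ = 1) {t : ℝ} (ht0 : 0 ≤ t) (ht1 : t < 1) :
    ∫ p, (1 - t ^ 2) * (1 + t ^ 2 - 2 * t * ⟪e, b p⟫) ^ (-(k : ℝ) / 2) ∂σ ≤ σ.real univ := by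
  have := h.finite_boundary
  rcases ht0.eq_or_lt with rfl | ht
  · simp
  · have h1 := nk_le hk h he ht0 ht1
    have h2 := source_nonneg h he ht ht1
    have h3 : ∫ p, (1 - t ^ 2) * (1 + t ^ 2 - 2 * t * ⟪e, b p⟫) ^ (-(k : ℝ) / 2) ∂σ =
        ∫ p, (1 + t ^ 2 - 2 * t * ⟪e, b p⟫) ^ (1 - (k : ℝ) / 2) ∂σ - 2 * t *
        ∫ p, (1 + t ^ 2 - 2 * t * ⟪e, b p⟫) ^ (-(k : ℝ) / 2) * (t - ⟪e, b p⟫) ∂σ := by
      rw [← integral_const_mul, ← integral_sub]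
      · refine integral_congr_ae ?_
        filter_upwards [h.boundary_mem] with p hp
        have hD := den_pos ht.le ht1 he hp
        rw [show (1 - (k : ℝ) / 2) = -(k : ℝ) / 2 + 1 by ring, Real.rpow_add_one hD.ne']
        ring
      · simpa using integrable_den_rpow h he ht0 ht1 (fun _ => 1) continuous_const
          (1 - (k : ℝ) / 2)
      · exact (integrable_den_rpow h he ht0 ht1 (fun x => t - ⟪e, x⟫) (by fun_prop)
          (-(k : ℝ) / 2)).const_mul _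
    rw [h3]
    nlinarith [mul_nonneg ht.le h2]

end FBK
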