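import Pool.Agent.Helper48.FB.St.Stubs

/-! Project FB, piece A5: start of the levels. -/

set_option autoImplicit false

namespace Pool.Agent.Helper8.FB

open Finset
open Pool.Agent.Helper53.WR
open Pool.Agent.Helper48.FB
open Pool.Agent.Helper48.FB.St (filler_core)

lemma winLe_mono {A : Finset ℕ} {W W' : ℕ} (h : WinLe A W) (hW : W ≤ W') : WinLe A W' :=
  fun y l => (h y l).trans (Nat.mul_le_mul_right _ hW)

/-- FB-A5 (start of the levels; from A4 with an empty family). -/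
theorem top_base (J : ℕ) (hJ : 100 ≤ J) :
    ∃ T, Top J (Cs * (J + 1)) (Cs * (J + 1)) (Nat.log 2 (16 * J) + 1) T T ∅ := by
  obtain ⟨R, h1, h2, h3, h4, -⟩ := filler_core 0 J hJ (J := Empty) ∅ (fun j => j.elim)
    (fun j => j.elim) (fun j => j.elim) (by simp) (by simp)
  have hF : ∀ n, repF R n ≤ Cs * (J + 1) := by
    intro n
    refine (h3 n).trans ?_
    unfold Cs
    omega
  have hcov : ∀ n, n < 2 ^ J → ∃ x ∈ R, ∃ y ∈ R, x + y = n := fun n hn => h2 n (by omega) hn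
  refine ⟨R, ⟨Subset.rfl, fun x hx => (h1 x hx).2, hcov, hF, hF, ?_, ?_⟩⟩
  · exact winLe_mono h4 (Nat.lt_pow_succ_log_self (by norm_num) _).le
  · intro j hj _
    refine ⟨?_, fun n _ _ => hF n⟩
    intro n hn1 hn2
    obtain ⟨x, hx, y, hy, hxy⟩ := hcov n (hn2.trans_le (Nat.pow_le_pow_right (by norm_num) hj))
    exact ⟨x, mem_coe.2 hx, y, mem_coe.2 hy, hxy⟩

end Pool.Agent.Helper8.FB
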